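import Pool.Agent.V1182.Gau
import Pool.Agent.V1182.Log

/-!
The parabolic Hausdorff measure of the singular set of a suitable weak periodic solution of the
Navier-Stokes equations vanishes for every gauge `h` with `h r / r` nonincreasing and
`∫₀ dr / h r = ∞`, for example for `h r = r log (1 / r)`. See the claim file for the definitions.
-/

set_option autoImplicit false

open MeasureTheory Set Metric
open scoped ContDiff ENNReal

namespace Pool.Agent.Results.MP_6bf1e5_an.GaugeMeasure

open H459R3.NS Pool.Agent.Y8 Pool.Agent.V1182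

/-- Let `(u, p)` be a suitable weak `1`-periodic solution of the Navier-Stokes equations on
`(0, T) × ℝ³` with viscosity `ν > 0`. Let `h` be a gauge which is positive on `(0, r₀]`, with
`h r / r` nonincreasing there and `∫ dr / h r = ∞` over `(0, r₀]`. Then the set of the singular
points of `u` in `(0, T) × ℝ³` has parabolic Hausdorff measure zero for the gauge `h`. In
particular this holds for `h r = r log (1 / r)`. -/
theorem result (ν T E D : ℝ) (G : Set ℝ) (u : ℝ → V → V) (p : ℝ → V → ℝ) (hν : 0 < ν)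
    (hT : Turb ν T E D G u p) :
    (∀ (r₀ : ℝ) (h : ℝ → ℝ), 0 < r₀ → (∀ r, 0 < r → r ≤ r₀ → 0 < h r) →
      (∀ r s, 0 < r → r ≤ s → s ≤ r₀ → h s / s ≤ h r / r) →
      ∫⁻ r in Ioc 0 r₀, ENNReal.ofReal (1 / h r) = ⊤ →
        GNull h {z | z.1 ∈ Ioo 0 T ∧ SingPt G u z.1 z.2}) ∧
    GNull (fun r => r * Real.log (1 / r)) {z | z.1 ∈ Ioo 0 T ∧ SingPt G u z.1 z.2} :=
  ⟨fun r₀ h hr₀ hpos hmono hint => gauge ν T E D G u p hν hT r₀ h hr₀ hpos hmono hint,
    gauge ν T E D G u p hν hT (1 / 2) _ (by norm_num) log_gauge.1 log_gauge.2 log_int⟩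

end Pool.Agent.Results.MP_6bf1e5_an.GaugeMeasure
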