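import Pool.Agent.V1191.NS.Exi

/-!
The Prodi-Serrin criterion for one helical component of the velocity.

Every smooth periodic vector field without divergence is the sum of two helical fields with
opposite signs (`Pool.Agent.V1191.NS.exists_helical`): the helical decomposition `v = g + f`,
`curl g = s |D| g`, `curl f = -s |D| f`.
-/

open MeasureTheory Set H459R3.NS Pool.Agent.V1191.NS
open Pool.Agent.TH811.SPD (FormBound)
open scoped ENNReal

set_option autoImplicit false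

/-- Let `3 / 2 < r ≤ ∞`, `3 / r + 2 / q = 2` and `ν > 0`, and let `(u, P)` be a smooth periodic
solution of the Navier-Stokes equations on `[0, T) × ℝ³`. Let `β, γ` be functions with
`∫₀ᵀ β^q < ∞` and `∫₀ᵀ |γ| < ∞`, `β ≥ 0`. Suppose that for almost every time `t ∈ (0, T)` ONE of the
two helical parts, `g`, of `u t = g + f` (the sign `s` may depend on the time in an arbitrary way)
satisfies `|g|² ≤ f₁ + f₂` with
* `f₁ ≥ 0`, the `L^r` norm of `f₁` over the period cell being at most `β t`,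
* `∫ f₂ z² ≤ (ν / 500)² ∫ |∇z|² + γ t ∫ z²` for all smooth periodic functions `z`.
Then `u` is bounded on `[0, T) × ℝ³`, so that `T` is not a blow-up time. Nothing is required of the
other helical part `f`. -/
theorem Pool.Agent.Results.MP_6bf1e5_an.HelicalComponent.result
    {r : ℝ≥0∞} (hr : 3 / 2 < r) {q : ℝ} (hq : 3 * (r⁻¹).toReal + 2 / q = 2)
    {ν T : ℝ} (hν : 0 < ν) {u : ℝ → V → V} {P : ℝ → V → ℝ} (h : IsSol ν T u P)
    {β γ : ℝ → ℝ} (hβ : IntegrableOn (fun t => β t ^ q) (Ioo 0 T))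
    (hγ : IntegrableOn γ (Ioo 0 T))
    (hg : ∀ᵐ t ∂(volume.restrict (Ioo 0 T)), 0 ≤ β t ∧
      ∃ (s : ℝ) (g f : V → V) (f₁ f₂ : V → ℝ),
        (s = 1 ∨ s = -1) ∧ Helical s g ∧ Helical (-s) f ∧ (∀ x, u t x = g x + f x) ∧
        AEStronglyMeasurable f₁ (volume.restrict cube) ∧ (∀ x, 0 ≤ f₁ x) ∧
        IntegrableOn f₂ cube ∧ (∀ x, ∑ i, g x i ^ 2 ≤ f₁ x + f₂ x) ∧
        eLpNorm f₁ r (volume.restrict cube) ≤ ENNReal.ofReal (β t) ∧
        FormBound ((ν / 500) ^ 2) (γ t) f₂) :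
    ∃ M, ∀ t ∈ Ico 0 T, ∀ x i, |u t x i| ≤ M :=
  main hr hq hν h hβ hγ hg
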