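import Pool.Agent.V1178.NS.Fin

/-!
Finite-time blow-up for the three-dimensional periodic Navier-Stokes equations with additional
terms of strictly lower order,
`∂ₜ u + (u · ∇) u + ∇ p + G(u, u) = ν (Δ u - D u)`, `div u = 0`:
`D` is linear, symmetric, nonnegative (so it adds to the dissipation) and of order `1 + a < 2`, `G`
is bilinear, energy-neutral and of order `s < 1` (the Navier-Stokes nonlinearity has order `1`); both
are arbitrarily small (`δ`) and act only in an arbitrarily small neighbourhood (`ρ`) of one point of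
the torus. Every pair `s, a < 1` with `2 < 3 a` and `7 < 6 s + 3 a` is admissible, for example
`s = a = 0.78`.
-/

open Set

namespace Pool.Agent.Results.MP_6bf1e5_an.LowerOrder

open H459R3.NS Pool.Agent.V1178.NS

theorem result : ∀ ν δ ρ s a : ℝ, 0 < ν → 0 < δ → 0 < ρ → s < 1 → a < 1 → 2 < 3 * a →
    7 < 6 * s + 3 * a →
    ∃ (D : (V → V) → V → V) (G : (V → V) → (V → V) → V → V) (T : ℝ) (u : ℝ → V → V)
      (p : ℝ → V → ℝ), Lower s a δ ρ D G ∧ 0 < T ∧ PSol ν T D G u p ∧
      (∀ M : ℝ, ∃ t ∈ Ico 0 T, ∃ x, M < ‖u t x‖) ∧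
      ∀ (T' : ℝ) (v : ℝ → V → V) (q : ℝ → V → ℝ), PSol ν T' D G v q → v 0 = u 0 →
        T' ≤ T ∧ ∀ t ∈ Ico 0 T', v t = u t :=
  t_main

end Pool.Agent.Results.MP_6bf1e5_an.LowerOrder
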