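import Pool.Agent.V1183.PM.Tran

/-!
Navier-Stokes equations: a singularity of type I at `(x₀, T)` is excluded by a one-sided bound for
the scaling derivative of the pressure on one long logarithmic window of time.

If the rescaled pressure `P(y, s) = (T - t) p(t, x₀ + √(T - t) y)`, `s = -log (T - t)`, satisfies
`∂ₛ P ≤ g(s)` for `|y| ≤ 1/ε` on one interval of length at least `log (1/ε)` on which the mean of
`g ≥ 0` is at most `ε = ε(M, ν)`, then `(x₀, T)` is a regular point. More generally, part of the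
square of the rescaled vorticity may be added on the right, and a bounded corrector `Ψ` may be used
on the left.
-/

set_option autoImplicit false

open MeasureTheory Set Metric Filter Topology
open scoped ContDiff ENNReal

namespace Pool.Agent.Results.MP_6bf1e5_an.PressureMonotone

open H459R3.NS (V pd)

/-! ### Definitions -/

/-- `(u, p)` is a smooth solution of the Navier-Stokes equations with viscosity `ν` on
`(0, T) × B(x₀, ρ)` with the bounds of type I with the constant `M` at `(x₀, T)`.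
(`V = ℝ³` with the maximum norm; `pd j` is the partial derivative in the direction `j`.) -/
structure TypeI (ν M T ρ : ℝ) (x₀ : V) (u : ℝ → V → V) (p : ℝ → V → ℝ) : Prop where
  smooth_u : ContDiffOn ℝ ∞ (fun z : ℝ × V => u z.1 z.2) (Ioo 0 T ×ˢ ball x₀ ρ)
  smooth_p : ContDiffOn ℝ ∞ (fun z : ℝ × V => p z.1 z.2) (Ioo 0 T ×ˢ ball x₀ ρ)
  divfree : ∀ t ∈ Ioo 0 T, ∀ x ∈ ball x₀ ρ, ∑ i, pd i (fun y => u t y i) x = 0
  momentum : ∀ t ∈ Ioo 0 T, ∀ x ∈ ball x₀ ρ, ∀ i,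
    deriv (fun s => u s x i) t + ∑ j, u t x j * pd j (fun y => u t y i) x
      = ν * ∑ j, pd j (pd j (fun y => u t y i)) x - pd i (p t) x
  bd_u : ∀ t ∈ Ioo 0 T, ∀ x ∈ ball x₀ ρ, ‖u t x‖ * (‖x - x₀‖ + √(T - t)) ≤ M
  bd_p : ∀ t ∈ Ioo 0 T, ∀ x ∈ ball x₀ ρ, |p t x| * (‖x - x₀‖ + √(T - t)) ^ 2 ≤ M ^ 2

/-- The time window `[T - τ, T - σ]`, long on the logarithmic scale, and a function `f ≥ 0` such
that the mean of `(T - t) f(t)` with respect to `log (T - t)` is at most `ε`. -/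
structure Window (ε ν T ρ σ τ : ℝ) (f : ℝ → ℝ) : Prop where
  pos : 0 < σ
  long : σ ≤ ε * τ
  time : 2 * τ ≤ T
  rad : 0 < ρ
  space : ν * τ ≤ ε * ρ ^ 2
  cont : ContinuousOn f (Icc (T - τ) (T - σ))
  nonneg : ∀ t ∈ Icc (T - τ) (T - σ), 0 ≤ f t
  mean : ∫ t in (T - τ)..(T - σ), f t ≤ ε * Real.log (τ / σ)

/-- The part of the window near the parabola `|x - x₀|² ≲ T - t`. -/
def Near (ε T ρ : ℝ) (x₀ : V) (t : ℝ) (x : V) : Prop :=
  x ∈ ball x₀ ρ ∧ ∑ i, (x i - x₀ i) ^ 2 ≤ (T - t) / ε ^ 2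

/-- The scaling derivative `2(T - t) ∂ₜp - 2p - (x - x₀) · ∇p` of the pressure, which is
`2 (T - t)⁻¹ ∂ₛ P` for the rescaled pressure `P(y, s) = (T - t) p(t, x₀ + √(T - t) y)`,
`s = -log (T - t)`. -/
noncomputable def Dp (T : ℝ) (x₀ : V) (p : ℝ → V → ℝ) (t : ℝ) (x : V) : ℝ :=
  2 * (T - t) * deriv (fun s => p s x) t - 2 * p t x - ∑ j, (x j - x₀ j) * pd j (p t) x

/-- The operator `∂ₜ + u · ∇ - ν Δ`. -/
noncomputable def Lf (ν : ℝ) (u : ℝ → V → V) (F : ℝ → V → ℝ) (t : ℝ) (x : V) : ℝ :=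
  deriv (fun s => F s x) t + ∑ j, u t x j * pd j (F t) x - ν * ∑ j, pd j (pd j (F t)) x

/-- The square of the vorticity. -/
noncomputable def w2 (v : V → V) (x : V) : ℝ :=
  1 / 2 * ∑ i, ∑ j, (pd i (fun y => v y j) x - pd j (fun y => v y i) x) ^ 2

/-- `u` is bounded near `(x₀, T)`. -/
def Reg (T : ℝ) (x₀ : V) (u : ℝ → V → V) : Prop :=
  ∃ δ : ℝ, 0 < δ ∧ ∃ B : ℝ, ∀ t ∈ Ioo (T - δ) T, ∀ x ∈ ball x₀ δ, ‖u t x‖ ≤ B

/-! ### Reduction -/

open Pool.Agent.V1183.PM Pool.Agent.TH305.DR W221.NS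

/-- The transformed solution. -/
lemma tg {ν M T ρ N : ℝ} {x₀ : V} {u : ℝ → V → V} {p : ℝ → V → ℝ} {χ : V → ℝ} (hν : 0 < ν)
    (h : TypeI ν M T ρ x₀ u p) (hρ : 0 < ρ)
    (hc : Cut (ρ / 2) (3 * ρ / 4) N χ) :
    TG (ν⁻¹ * (1 + √ν) * M) (ν * T) (ρ / 2) (tru χ ν x₀ u) (tr χ (ν⁻¹ ^ 2) ν x₀ p) := by
  have hu : ∀ i, ContDiffOn ℝ ∞ (fun z : ℝ × V => (fun t x => u t x i) z.1 z.2)
      (Ioo 0 T ×ˢ ball x₀ ρ) := fun i => contDiffOn_pi.1 h.smooth_u i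
  have hρ1 : 3 * ρ / 4 < ρ := by linarith
  have hsub : ∀ {y : V}, y ∈ ball (0 : V) (ρ / 2) → x₀ + y ∈ ball x₀ ρ := fun hy =>
    mem_tr2 (ball_subset_ball (by linarith) hy)
  have hru : ∀ i, (fun t x => tru χ ν x₀ u t x i) = tr χ ν⁻¹ ν x₀ (fun t x => u t x i) :=
    fun i => rfl
  have hθ : ∀ s ∈ Ioo 0 (ν * T), √(ν * T - s) = √ν * √(T - ν⁻¹ * s) := by
    intro s _
    rw [← Real.sqrt_mul hν.le]
    congr 1
    field_simp
  have hνs : 0 ≤ √ν := Real.sqrt_nonneg ν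
  have hnorm : ∀ s ∈ Ioo 0 (ν * T), ∀ y : V, ‖y‖ + √(ν * T - s)
      ≤ (1 + √ν) * (‖(x₀ + y) - x₀‖ + √(T - ν⁻¹ * s)) := by
    intro s hs y
    rw [hθ s hs, add_sub_cancel_left]
    have h1 := norm_nonneg y
    have h2 := Real.sqrt_nonneg (T - ν⁻¹ * s)
    nlinarith [mul_nonneg hνs h1]
  refine ⟨?_, tr_smooth le_rfl hν h.smooth_p hc.sm hc.out hρ1 _, ?_, ?_, ?_, ?_⟩
  · rw [contDiffOn_pi]
    intro i
    exact tr_smooth (F := fun t x => u t x i) le_rfl hν (hu i) hc.sm hc.out hρ1 ν⁻¹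
  · intro s hs y hy
    have h1 := h.divfree _ (mem_tr hν hs) _ (hsub hy)
    unfold W221.NS.dv
    have h2 : ∀ i, pd i (fun y => tru χ ν x₀ u s y i) y
        = ν⁻¹ * pd i (fun y => u (ν⁻¹ * s) y i) (x₀ + y) := fun i =>
      tr_pd (F := fun t x => u t x i) hc.one hy i
    simp_rw [h2]
    rw [← Finset.mul_sum, h1, mul_zero]
  · intro s hs y hy i
    have h1 := h.momentum _ (mem_tr hν hs) _ (hsub hy) i
    have h2 := tr_LL (a := ν⁻¹) (x₀ := x₀) (F := fun t x => u t x i) (u := u) (s := s) hc.one hν hy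
    have h3 : pd i (tr χ (ν⁻¹ ^ 2) ν x₀ p s) y = ν⁻¹ ^ 2 * pd i (p (ν⁻¹ * s)) (x₀ + y) :=
      tr_pd hc.one hy i
    rw [h3]
    unfold LL Pool.Agent.V1183.PM.Lf at h2
    have e1 : deriv (fun s => tru χ ν x₀ u s y i) s
        + adv (tru χ ν x₀ u s) (fun y => tru χ ν x₀ u s y i) y
        - H459R3.NS.lap (fun y => tru χ ν x₀ u s y i) y
        = ν⁻¹ * ν⁻¹ * (deriv (fun s => u s (x₀ + y) i) (ν⁻¹ * s)
          + ∑ j, u (ν⁻¹ * s) (x₀ + y) j * pd j (fun x => u (ν⁻¹ * s) x i) (x₀ + y)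
          - ν * ∑ j, pd j (pd j (fun x => u (ν⁻¹ * s) x i)) (x₀ + y)) := h2
    have e2 : deriv (fun s => u s (x₀ + y) i) (ν⁻¹ * s)
          + ∑ j, u (ν⁻¹ * s) (x₀ + y) j * pd j (fun x => u (ν⁻¹ * s) x i) (x₀ + y)
          - ν * ∑ j, pd j (pd j (fun x => u (ν⁻¹ * s) x i)) (x₀ + y)
          = - pd i (p (ν⁻¹ * s)) (x₀ + y) := by
      linarith
    rw [e2] at e1
    linear_combination e1
  · intro s hs y hy
    have h1 := h.bd_u _ (mem_tr hν hs) _ (hsub hy)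
    have h2 : tru χ ν x₀ u s y = ν⁻¹ • u (ν⁻¹ * s) (x₀ + y) := by
      funext i
      show χ y * (ν⁻¹ * u (ν⁻¹ * s) (x₀ + y) i) = ν⁻¹ * u (ν⁻¹ * s) (x₀ + y) i
      rw [hc.one y hy, one_mul]
    rw [h2, norm_smul, Real.norm_of_nonneg (by positivity)]
    calc ν⁻¹ * ‖u (ν⁻¹ * s) (x₀ + y)‖ * (‖y‖ + √(ν * T - s))
        ≤ ν⁻¹ * ‖u (ν⁻¹ * s) (x₀ + y)‖ * ((1 + √ν) * (‖(x₀ + y) - x₀‖ + √(T - ν⁻¹ * s))) :=
          mul_le_mul_of_nonneg_left (hnorm s hs y) (by positivity)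
      _ = ν⁻¹ * (1 + √ν) * (‖u (ν⁻¹ * s) (x₀ + y)‖ * (‖(x₀ + y) - x₀‖ + √(T - ν⁻¹ * s))) := by ring
      _ ≤ ν⁻¹ * (1 + √ν) * M := mul_le_mul_of_nonneg_left h1 (by positivity)
  · intro s hs y hy
    have h1 := h.bd_p _ (mem_tr hν hs) _ (hsub hy)
    have h2 : tr χ (ν⁻¹ ^ 2) ν x₀ p s y = ν⁻¹ ^ 2 * p (ν⁻¹ * s) (x₀ + y) := tr_eq hc.one hy
    rw [h2, abs_mul, abs_of_pos (show 0 < ν⁻¹ ^ 2 by positivity)]
    have h3 : (‖y‖ + √(ν * T - s)) ^ 2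
        ≤ ((1 + √ν) * (‖(x₀ + y) - x₀‖ + √(T - ν⁻¹ * s))) ^ 2 :=
      pow_le_pow_left₀ (by positivity) (hnorm s hs y) 2
    calc ν⁻¹ ^ 2 * |p (ν⁻¹ * s) (x₀ + y)| * (‖y‖ + √(ν * T - s)) ^ 2
        ≤ ν⁻¹ ^ 2 * |p (ν⁻¹ * s) (x₀ + y)|
          * ((1 + √ν) * (‖(x₀ + y) - x₀‖ + √(T - ν⁻¹ * s))) ^ 2 :=
          mul_le_mul_of_nonneg_left h3 (by positivity)
      _ = ν⁻¹ ^ 2 * (1 + √ν) ^ 2
          * (|p (ν⁻¹ * s) (x₀ + y)| * (‖(x₀ + y) - x₀‖ + √(T - ν⁻¹ * s)) ^ 2) := by ring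
      _ ≤ ν⁻¹ ^ 2 * (1 + √ν) ^ 2 * M ^ 2 := mul_le_mul_of_nonneg_left h1 (by positivity)
      _ = _ := by ring

/-- The conclusion. -/
lemma reg_of {ν T ρ N : ℝ} {x₀ : V} {u : ℝ → V → V} {χ : V → ℝ} (hν : 0 < ν) (hρ : 0 < ρ)
    (hc : Cut (ρ / 2) (3 * ρ / 4) N χ) (h : ¬ Sing (ν * T) (tru χ ν x₀ u) 0) : Reg T x₀ u := by
  unfold Sing at h
  push Not at h
  obtain ⟨δ, hδ, B, hB⟩ := h
  refine ⟨min (δ / ν) (min δ (ρ / 2)), by positivity, ν * B, ?_⟩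
  intro t ht x hx
  have m1 : min (δ / ν) (min δ (ρ / 2)) ≤ δ / ν := min_le_left _ _
  have m2 : min (δ / ν) (min δ (ρ / 2)) ≤ δ := (min_le_right _ _).trans (min_le_left _ _)
  have m3 : min (δ / ν) (min δ (ρ / 2)) ≤ ρ / 2 := (min_le_right _ _).trans (min_le_right _ _)
  have hx' : ‖x - x₀‖ < min (δ / ν) (min δ (ρ / 2)) := by
    rw [mem_ball, dist_eq_norm] at hx
    exact hx
  have h1 : ν * t ∈ Ioo (ν * T - δ) (ν * T) := by
    constructor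
    · have : T - δ / ν < t := by linarith [ht.1]
      have h2 := mul_lt_mul_of_pos_left this hν
      rw [mul_sub, mul_div_cancel₀ _ hν.ne'] at h2
      exact h2
    · exact mul_lt_mul_of_pos_left ht.2 hν
  have h2 : x - x₀ ∈ ball (0 : V) δ := by
    rw [mem_ball, dist_zero_right]
    linarith
  have h3 : x - x₀ ∈ ball (0 : V) (ρ / 2) := by
    rw [mem_ball, dist_zero_right]
    linarith
  have h4 := hB _ h1 _ h2
  have h5 : tru χ ν x₀ u (ν * t) (x - x₀) = ν⁻¹ • u t x := by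
    funext i
    show χ (x - x₀) * (ν⁻¹ * u (ν⁻¹ * (ν * t)) (x₀ + (x - x₀)) i) = ν⁻¹ * u t x i
    rw [hc.one _ h3, one_mul, add_sub_cancel, inv_mul_cancel_left₀ hν.ne']
  rw [h5, norm_smul, Real.norm_of_nonneg (by positivity), inv_mul_le_iff₀ hν] at h4
  exact h4

/-- The transformed function of time. -/
noncomputable def ff (ν T σ τ : ℝ) (f : ℝ → ℝ) (hστ : T - τ ≤ T - σ) (s : ℝ) : ℝ :=
  ν⁻¹ ^ 2 * IccExtend hστ ((Icc (T - τ) (T - σ)).domRestrict f) (ν⁻¹ * s)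

lemma ff_eq {ν T σ τ : ℝ} {f : ℝ → ℝ} (hστ : T - τ ≤ T - σ) {s : ℝ}
    (hs : ν⁻¹ * s ∈ Icc (T - τ) (T - σ)) : ff ν T σ τ f hστ s = ν⁻¹ ^ 2 * f (ν⁻¹ * s) := by
  unfold ff
  rw [IccExtend_of_mem _ _ hs]
  rfl

/-- The window after the transformation. -/
lemma win {ε ε' ν M M' c T ρ σ τ N : ℝ} {x₀ : V} {u : ℝ → V → V} {p Ψ : ℝ → V → ℝ} {χ : V → ℝ}
    {f : ℝ → ℝ} (hν : 0 < ν) (hε : 0 < ε) (hε' : 0 < ε') (e1 : ε ≤ 1) (e4 : ε ≤ ε' / 4)
    (eν : ε * √ν ≤ ε') (eν2 : ε ≤ ν * ε')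
    (h : TypeI ν M T ρ x₀ u p) (hw : Window ε ν T ρ σ τ f) (hc : Cut (ρ / 2) (3 * ρ / 4) N χ)
    (hστ : T - τ ≤ T - σ) (hΨ : C12 (ν * T) Ψ)
    (hb : ∀ t ∈ Icc (T - τ) (T - σ), ∀ x, Near ε T ρ x₀ t x → x - x₀ ∈ ball (0 : V) (ρ / 2) →
      |Ψ (ν * t) (x - x₀)| ≤ M')
    (hL : ∀ t ∈ Icc (T - τ) (T - σ), ∀ x, Near ε T ρ x₀ t x → x - x₀ ∈ ball (0 : V) (ρ / 2) →
      LL (tru χ ν x₀ u) (fun t x => HH (ν * T) (tru χ ν x₀ u) t x + Ψ t x) (ν * t) (x - x₀)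
        ≤ ν⁻¹ ^ 2 * f t - c * ((ν * T - ν * t) *
          Pool.Agent.TH305.DR.ST 0 (tru χ ν x₀ u (ν * t)) (x - x₀))) :
    Win ε' (ν⁻¹ * (1 + √ν) * M) M' c (ν * σ) (ν * τ) (ν * T) (ρ / 2) (ff ν T σ τ f hστ)
      (tru χ ν x₀ u) (tr χ (ν⁻¹ ^ 2) ν x₀ p) Ψ := by
  have hσ := hw.pos
  have hρ := hw.rad
  have hτ : 0 < τ := by
    by_contra hcon
    have : ε * τ ≤ 0 := mul_nonpos_of_nonneg_of_nonpos hε.le (not_lt.1 hcon)
    linarith [hw.long]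
  have hεε : ε ≤ ε' := by linarith
  have hmem : ∀ s ∈ Icc (ν * T - ν * τ) (ν * T - ν * σ), ν⁻¹ * s ∈ Icc (T - τ) (T - σ) := by
    intro s hs
    constructor
    · rw [le_inv_mul_iff₀ hν]
      linarith [hs.1]
    · rw [inv_mul_le_iff₀ hν]
      linarith [hs.2]
  have hnear : ∀ s ∈ Icc (ν * T - ν * τ) (ν * T - ν * σ), ∀ y ∈ ball (0 : V) (ρ / 2),
      q2 y ≤ (ν * T - s) / ε' ^ 2 → Near ε T ρ x₀ (ν⁻¹ * s) (y + x₀) := by
    intro s hs y hy hq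
    refine ⟨?_, ?_⟩
    · rw [mem_ball, dist_eq_norm, add_sub_cancel_right]
      rw [mem_ball, dist_zero_right] at hy
      linarith
    · have e : ∑ i, ((y + x₀) i - x₀ i) ^ 2 = q2 y := by
        unfold q2
        simp
      rw [e]
      refine hq.trans ?_
      have hθ : 0 ≤ T - ν⁻¹ * s := by linarith [(hmem s hs).2]
      have e2 : ν * T - s = ν * (T - ν⁻¹ * s) := by field_simp
      rw [e2, div_le_div_iff₀ (by positivity) (by positivity)]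
      have h3 : (ε * √ν) ^ 2 ≤ ε' ^ 2 := pow_le_pow_left₀ (by positivity) eν 2
      rw [mul_pow, Real.sq_sqrt hν.le] at h3
      calc ν * (T - ν⁻¹ * s) * ε ^ 2 = (T - ν⁻¹ * s) * (ε ^ 2 * ν) := by ring
        _ ≤ (T - ν⁻¹ * s) * ε' ^ 2 := mul_le_mul_of_nonneg_left h3 hθ
  have e5 : ∀ s, ν * (ν⁻¹ * s) = s := fun s => mul_inv_cancel_left₀ hν.ne' s
  refine ⟨tg hν h hρ hc, by positivity, ?_, ?_, by positivity, ?_, hΨ, ?_, ?_, ?_, ?_, ?_⟩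
  · have h1 := hw.long
    have h2 : ε * τ ≤ ε' * τ := mul_le_mul_of_nonneg_right hεε hτ.le
    nlinarith
  · have h1 := hw.time
    nlinarith
  · have h1 := hw.space
    have h2 : 0 < ρ ^ 2 := by positivity
    nlinarith
  · intro s hs y hy hq
    have h1 := hb _ (hmem s hs) _ (hnear s hs y hy hq) (by rwa [add_sub_cancel_right])
    rw [e5, add_sub_cancel_right] at h1
    exact h1
  · unfold ff
    apply continuous_const.mul
    have h1 : Continuous ((Icc (T - τ) (T - σ)).domRestrict f) :=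
      continuousOn_iff_continuous_domRestrict.1 hw.cont
    exact (h1.Icc_extend').comp (by fun_prop)
  · intro s hs
    rw [ff_eq hστ (hmem s hs)]
    have := hw.nonneg _ (hmem s hs)
    positivity
  · intro s hs y hy hq
    have h1 := hL _ (hmem s hs) _ (hnear s hs y hy hq) (by rwa [add_sub_cancel_right])
    rw [e5, add_sub_cancel_right] at h1
    rw [ff_eq hστ (hmem s hs)]
    exact h1
  · have hlog : 0 ≤ Real.log (τ / σ) := by
      apply Real.log_nonneg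
      rw [le_div_iff₀ hσ]
      have h1 := hw.long
      nlinarith
    have e6 : ν * τ / (ν * σ) = τ / σ := by field_simp
    rw [e6]
    have e7 : ∫ s in (ν * T - ν * τ)..(ν * T - ν * σ), ff ν T σ τ f hστ s
        = ν⁻¹ * ∫ t in (T - τ)..(T - σ), f t := by
      unfold ff
      rw [intervalIntegral.integral_const_mul]
      have e8 := intervalIntegral.mul_integral_comp_mul_left (a := ν * T - ν * τ)
        (b := ν * T - ν * σ) (c := ν⁻¹)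
        (f := IccExtend hστ ((Icc (T - τ) (T - σ)).domRestrict f))
      have e9 : ν⁻¹ * (ν * T - ν * τ) = T - τ := by field_simp
      have e10 : ν⁻¹ * (ν * T - ν * σ) = T - σ := by field_simp
      rw [e9, e10] at e8
      have e11 : ∫ t in (T - τ)..(T - σ), IccExtend hστ ((Icc (T - τ) (T - σ)).domRestrict f) t
          = ∫ t in (T - τ)..(T - σ), f t := by
        apply intervalIntegral.integral_congr
        intro t ht
        rw [uIcc_of_le hστ] at ht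
        show IccExtend hστ ((Icc (T - τ) (T - σ)).domRestrict f) t = f t
        rw [IccExtend_of_mem _ _ ht]
        rfl
      rw [e11] at e8
      rw [← e8]
      ring
    rw [e7]
    have h1 := hw.mean
    rw [inv_mul_le_iff₀ hν]
    calc ∫ t in (T - τ)..(T - σ), f t ≤ ε * Real.log (τ / σ) := h1
      _ ≤ (ν * ε') * Real.log (τ / σ) := mul_le_mul_of_nonneg_right eν2 hlog
      _ = _ := by ring

lemma exists_eps {ε' ν : ℝ} (hε' : 0 < ε') (hν : 0 < ν) : ∃ ε : ℝ, 0 < ε ∧ ε ≤ 1 ∧ ε ≤ ε' / 4 ∧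
    ε * √ν ≤ ε' ∧ ε ≤ ν * ε' := by
  have hs : 0 < √ν := Real.sqrt_pos.2 hν
  refine ⟨min (min 1 (ε' / 4)) (min (ε' / √ν) (ν * ε')), by positivity, ?_, ?_, ?_, ?_⟩
  · exact (min_le_left _ _).trans (min_le_left _ _)
  · exact (min_le_left _ _).trans (min_le_right _ _)
  · rw [← le_div_iff₀ hs]
    exact (min_le_right _ _).trans (min_le_left _ _)
  · exact (min_le_right _ _).trans (min_le_right _ _)

/-! ### The result -/

/-- Exclusion of singularities of type I. -/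
theorem result (ν M M' κ : ℝ) (hν : 0 < ν) (hM : 0 < M) (hM' : 0 ≤ M') (hκ : κ < 2) :
    ∃ ε : ℝ, 0 < ε ∧
      ∀ (T ρ : ℝ) (x₀ : V) (u : ℝ → V → V) (p : ℝ → V → ℝ), TypeI ν M T ρ x₀ u p →
      ∀ (σ τ : ℝ) (f : ℝ → ℝ), Window ε ν T ρ σ τ f → ∀ Ψ : ℝ → V → ℝ,
        ContDiffOn ℝ 2 (fun z : ℝ × V => Ψ z.1 z.2) (Ioo 0 T ×ˢ ball x₀ ρ) →
        (∀ t ∈ Icc (T - τ) (T - σ), ∀ x, Near ε T ρ x₀ t x → |Ψ t x| ≤ M') →
        (∀ t ∈ Icc (T - τ) (T - σ), ∀ x, Near ε T ρ x₀ t x →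
          Dp T x₀ p t x + Lf ν u Ψ t x ≤ f t + κ * ν * ((T - t) * w2 (u t) x)) →
          Reg T x₀ u := by
  have hM₁ : 0 < ν⁻¹ * (1 + √ν) * M := by positivity
  obtain ⟨ε', hε', hcore⟩ := core (M' := 2 * (ν⁻¹ * (1 + √ν) * M) ^ 2 + ν⁻¹ * M')
    (c := 1 - κ / 2) hM₁ (by positivity) (by linarith)
  obtain ⟨ε, hε, e1, e2, e3, e4⟩ := exists_eps hε' hν
  refine ⟨ε, hε, ?_⟩
  intro T ρ x₀ u p h σ τ f hw Ψ hΨ hΨb hD
  obtain ⟨N, χ, -, hc⟩ := exists_cut (show 0 < ρ / 2 by linarith [hw.rad])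
    (show ρ / 2 < 3 * ρ / 4 by linarith [hw.rad])
  have hτ : 0 < τ := by
    by_contra hcon
    have : ε * τ ≤ 0 := mul_nonpos_of_nonneg_of_nonpos hε.le (not_lt.1 hcon)
    linarith [hw.long, hw.pos]
  have hστ : T - τ ≤ T - σ := by
    have := hw.long
    nlinarith
  have hTG := tg hν h hw.rad hc
  have hsub : ∀ t ∈ Icc (T - τ) (T - σ), t ∈ Ioo 0 T ∧ ν * t ∈ Ioo 0 (ν * T) := by
    intro t ht
    have h1 : 0 < t := by linarith [ht.1, hw.time]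
    have h2 : t < T := by linarith [ht.2, hw.pos]
    exact ⟨⟨h1, h2⟩, ⟨by positivity, mul_lt_mul_of_pos_left h2 hν⟩⟩
  have hCΨ : C12 (ν * T) (tr χ ν⁻¹ ν x₀ Ψ) := by
    have h1 := tr_smooth (n := 2) (by norm_cast) hν hΨ hc.sm hc.out
      (show 3 * ρ / 4 < ρ by linarith [hw.rad]) ν⁻¹
    refine ⟨h1.continuousOn, ?_, ?_⟩
    · intro t ht
      have h2 : ContDiff ℝ 2 (fun y : V => (t, y)) := by fun_prop
      rw [← contDiffOn_univ]
      exact h1.comp (s := univ) (g := fun z : ℝ × V => tr χ ν⁻¹ ν x₀ Ψ z.1 z.2)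
        h2.contDiffOn (fun y _ => ⟨ht, mem_univ _⟩)
    · intro t ht x
      have hop : IsOpen (Ioo 0 (ν * T) ×ˢ (univ : Set V)) := isOpen_Ioo.prod isOpen_univ
      have h3 : ContDiffAt ℝ 2 (fun z : ℝ × V => tr χ ν⁻¹ ν x₀ Ψ z.1 z.2) (t, x) :=
        (h1 _ ⟨ht, mem_univ _⟩).contDiffAt (hop.mem_nhds ⟨ht, mem_univ _⟩)
      have h4 := h3.differentiableAt (by norm_num)
      exact h4.comp (g := fun z : ℝ × V => tr χ ν⁻¹ ν x₀ Ψ z.1 z.2) (f := fun s : ℝ => (s, x)) t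
        (by fun_prop)
  have hCP := (hTG.jPh 1).c12
  have hWin := win (Ψ := fun t x => PhP 1 (ν * T) (tr χ (ν⁻¹ ^ 2) ν x₀ p) t x
      + tr χ ν⁻¹ ν x₀ Ψ t x) (c := 1 - κ / 2)
    (M' := 2 * (ν⁻¹ * (1 + √ν) * M) ^ 2 + ν⁻¹ * M') hν hε hε' e1 e2 e3 e4 h hw hc hστ
    (hCP.add hCΨ)
    (fun t ht x hn hx => by
      have e5 : ν⁻¹ * (ν * t) = t := inv_mul_cancel_left₀ hν.ne' t
      refine (abs_add_le _ _).trans (add_le_add (hTG.PhB (by norm_num) le_rfl (hsub t ht).2 hx) ?_)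
      rw [tr_eq hc.one hx, e5, add_sub_cancel, abs_mul, abs_of_pos (show 0 < ν⁻¹ by positivity)]
      exact mul_le_mul_of_nonneg_left (hΨb t ht x hn) (by positivity))
    (fun t ht x hn hx => by
      have e5 : ν⁻¹ * (ν * t) = t := inv_mul_cancel_left₀ hν.ne' t
      have h1 := hD t ht x hn
      have e0 : (fun t x => HH (ν * T) (tru χ ν x₀ u) t x
          + (PhP 1 (ν * T) (tr χ (ν⁻¹ ^ 2) ν x₀ p) t x + tr χ ν⁻¹ ν x₀ Ψ t x))
          = fun t x => (HH (ν * T) (tru χ ν x₀ u) t x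
          + PhP 1 (ν * T) (tr χ (ν⁻¹ ^ 2) ν x₀ p) t x) + tr χ ν⁻¹ ν x₀ Ψ t x := by
        funext t x
        ring
      rw [e0, LL_add (hTG.jHH.c12.add hCP) hCΨ (hsub t ht).2]
      have h2 := hTG.LLP (hsub t ht).2 hx (lam := 1) le_rfl
      have e6 : DP 1 (ν * T) (tru χ ν x₀ u) (tr χ (ν⁻¹ ^ 2) ν x₀ p) (ν * t) (x - x₀)
          = ν⁻¹ ^ 2 * Dp T x₀ p t x := by
        unfold DP Dp
        rw [tr_dt hc.one hx, tr_eq hc.one hx]
        have e7 : ∀ j, pd j (tr χ (ν⁻¹ ^ 2) ν x₀ p (ν * t)) (x - x₀)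
            = ν⁻¹ ^ 2 * pd j (p t) x := by
          intro j
          rw [tr_pd hc.one hx, e5, add_sub_cancel]
        simp only [e7, e5, add_sub_cancel, Pi.sub_apply, Fin.sum_univ_three]
        field_simp
        ring
      have e7 : LL (tru χ ν x₀ u) (tr χ ν⁻¹ ν x₀ Ψ) (ν * t) (x - x₀)
          = ν⁻¹ ^ 2 * Lf ν u Ψ t x := by
        rw [tr_LL hc.one hν hx, e5, add_sub_cancel, pow_two]
        rfl
      have e9 : Pool.Agent.TH305.DR.ST 0 (tru χ ν x₀ u (ν * t)) (x - x₀)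
          = 2 * ν⁻¹ ^ 2 * w2 (u t) x := by
        have e10 : ∀ i j, pd j (fun y => tru χ ν x₀ u (ν * t) y i) (x - x₀)
            = ν⁻¹ * pd j (fun y => u t y i) x := by
          intro i j
          have := tr_pd (a := ν⁻¹) (ν := ν) (x₀ := x₀) (s := ν * t) (F := fun t x => u t x i)
            hc.one hx j
          rw [e5, add_sub_cancel] at this
          exact this
        rw [st0_eq, Fintype.sum_prod_type]
        unfold Om w2
        simp only [e10, Fin.sum_univ_three]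
        ring
      rw [e6, e9] at h2
      rw [e7, e9]
      have h3 := mul_le_mul_of_nonneg_left h1 (show 0 ≤ ν⁻¹ ^ 2 by positivity)
      have e11 : ν⁻¹ ^ 2 * (f t + κ * ν * ((T - t) * w2 (u t) x))
          = ν⁻¹ ^ 2 * f t + κ / 2 * ((ν * T - ν * t) * (2 * ν⁻¹ ^ 2 * w2 (u t) x)) := by
        field_simp
      rw [e11] at h3
      linarith)
  exact reg_of hν hw.rad hc (hcore _ _ _ _ _ _ _ _ hWin)

end Pool.Agent.Results.MP_6bf1e5_an.PressureMonotone
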